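import Pool.Agent.Helper16.CubicDisjoint

set_option autoImplicit false

namespace Pool.Agent.Helper16.Retired.PlaneLattice

open MvPolynomial Module

/-- The intersection number of (the classes of) two planes `A`, `B` contained in a smooth cubic
fourfold: it is `3` when they are equal, `-1` when they meet in a line, `1` when they meet in one
point and `0` when they are disjoint.  Planes are 3-dimensional linear subspaces of `ℂ⁶`. -/
noncomputable def planeInter (A B : Submodule ℂ (Fin 6 → ℂ)) : ℤ :=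
  if finrank ℂ (A ⊓ B : Submodule ℂ (Fin 6 → ℂ)) = 3 then 3
  else if finrank ℂ (A ⊓ B : Submodule ℂ (Fin 6 → ℂ)) = 2 then -1
  else if finrank ℂ (A ⊓ B : Submodule ℂ (Fin 6 → ℂ)) = 1 then 1
  else 0

/-- The discriminant `3 T² - (T.h²)²` of the sublattice generated by `h²` and `T = ∑ aᵢ Pᵢ`, where
the `Pᵢ` are planes of a smooth cubic fourfold (so that `Pᵢ.h² = 1`). -/
noncomputable def disc {ι : Type*} [Fintype ι] (P : ι → Submodule ℂ (Fin 6 → ℂ)) (a : ι → ℤ) : ℤ :=
  3 * (∑ i, ∑ j, a i * a j * planeInter (P i) (P j)) - (∑ i, a i) ^ 2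

/-- If a smooth complex cubic fourfold `X = {F = 0}` contains planes `Pᵢ` such that some integral
combination `T = ∑ aᵢ Pᵢ` has discriminant `3 T² - (T.h²)²` not divisible by `4`, then two of the
planes `Pᵢ` are disjoint and `X` is rational. -/
theorem result (F : MvPolynomial (Fin 6) ℂ) (hF : F.IsHomogeneous 3)
    (hs : ∀ x : Fin 6 → ℂ, x ≠ 0 → ∃ i, eval x (pderiv i F) ≠ 0)
    {ι : Type*} [Fintype ι] (P : ι → Submodule ℂ (Fin 6 → ℂ))
    (hP : ∀ i, finrank ℂ (P i) = 3 ∧ ∀ x ∈ P i, eval x F = 0) (a : ι → ℤ)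
    (hd : ¬ 4 ∣ disc P a) :
    (∃ i j, P i ⊓ P j = ⊥) ∧
    (Ideal.span {aeval (Fin.cons 1 X : Fin 6 → MvPolynomial (Fin 5) ℂ) F}).IsPrime ∧
    Nonempty (FractionRing (MvPolynomial (Fin 5) ℂ ⧸
        Ideal.span {aeval (Fin.cons 1 X : Fin 6 → MvPolynomial (Fin 5) ℂ) F}) ≃ₐ[ℂ]
      FractionRing (MvPolynomial (Fin 4) ℂ)) := by
  have key : ∃ i j, P i ⊓ P j = ⊥ := by
    by_contra hno
    push Not at hno
    apply hd
    have h1 : disc P a = ∑ i, ∑ j, a i * a j * (3 * planeInter (P i) (P j) - 1) := by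
      have h2 : (∑ i, a i) ^ 2 = ∑ i, ∑ j, a i * a j := by
        rw [pow_two, Finset.sum_mul_sum]
      rw [disc, h2, Finset.mul_sum, ← Finset.sum_sub_distrib]
      refine Finset.sum_congr rfl fun i _ => ?_
      rw [Finset.mul_sum, ← Finset.sum_sub_distrib]
      refine Finset.sum_congr rfl fun j _ => ?_
      ring
    rw [h1]
    refine Helper16.four_dvd a _ ?_ ?_ ?_
    · intro i j
      have h : planeInter (P i) (P j) = planeInter (P j) (P i) := by
        unfold planeInter
        rw [inf_comm]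
      rw [h]
    · intro i j
      have hle : finrank ℂ (P i ⊓ P j : Submodule ℂ (Fin 6 → ℂ)) ≤ 3 := by
        rw [← (hP i).1]
        exact Submodule.finrank_mono inf_le_left
      have hne : finrank ℂ (P i ⊓ P j : Submodule ℂ (Fin 6 → ℂ)) ≠ 0 := by
        intro h0
        exact hno i j (Submodule.finrank_eq_zero.mp h0)
      simp only [planeInter]
      split_ifs <;> first | decide | omega
    · intro i
      have h : planeInter (P i) (P i) = 3 := by
        unfold planeInter
        rw [inf_idem, (hP i).1]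
        rfl
      rw [h]
      decide
  refine ⟨key, ?_⟩
  obtain ⟨i, j, hij⟩ := key
  exact Helper16.rational_of_disjoint F hF hs (hP i) (hP j) hij

end Pool.Agent.Helper16.Retired.PlaneLattice
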