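import Pool.Agent.Helper16.CubicDisjoint

set_option autoImplicit false

namespace Pool.Agent.Results.MP_ffd2c1_ag.ThreeProducts

open MvPolynomial Module

/-- the linear form with coefficient vector `c` -/
noncomputable def lin (c : Fin 6 → ℂ) : MvPolynomial (Fin 6) ℂ := ∑ k, C (c k) * X k

/-- A smooth complex cubic fourfold whose equation is a sum of three products of three linear
forms is rational; it contains the two disjoint planes in which the first, respectively the
second, factors vanish. -/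
theorem result (c : Fin 3 → Fin 3 → Fin 6 → ℂ) (F : MvPolynomial (Fin 6) ℂ)
    (hF : F = ∑ i, lin (c i 0) * lin (c i 1) * lin (c i 2))
    (hs : ∀ x : Fin 6 → ℂ, x ≠ 0 → ∃ i, eval x (pderiv i F) ≠ 0) :
    (Ideal.span {aeval (Fin.cons 1 X : Fin 6 → MvPolynomial (Fin 5) ℂ) F}).IsPrime ∧
    Nonempty (FractionRing (MvPolynomial (Fin 5) ℂ ⧸
        Ideal.span {aeval (Fin.cons 1 X : Fin 6 → MvPolynomial (Fin 5) ℂ) F}) ≃ₐ[ℂ]
      FractionRing (MvPolynomial (Fin 4) ℂ)) := by
  have hl : ∀ d, (lin d).IsHomogeneous 1 := by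
    intro d
    refine IsHomogeneous.sum _ _ _ fun k _ => ?_
    simpa using (isHomogeneous_C (Fin 6) (d k)).mul (isHomogeneous_X ℂ k)
  have hhom : F.IsHomogeneous 3 := by
    rw [hF]
    exact IsHomogeneous.sum _ _ _ fun i _ => ((hl _).mul (hl _)).mul (hl _)
  have hev : ∀ x d, eval x (lin d) = ∑ k, d k * x k := by
    intro x d
    simp [lin]
  -- the linear map with the given components
  let L : Fin 3 → (Fin 6 → ℂ) →ₗ[ℂ] (Fin 3 → ℂ) := fun j =>
    LinearMap.pi fun i => ∑ k, (c i j k) • (LinearMap.proj k : (Fin 6 → ℂ) →ₗ[ℂ] ℂ)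
  have hL : ∀ j x i, L j x i = eval x (lin (c i j)) := by
    intro j x i
    simp [L, hev]
  have hmem : ∀ j x, x ∈ LinearMap.ker (L j) ↔ ∀ i, eval x (lin (c i j)) = 0 := by
    intro j x
    rw [LinearMap.mem_ker]
    constructor
    · intro h i
      rw [← hL, h]; rfl
    · intro h
      funext i
      rw [hL, h]; rfl
  have hinf : LinearMap.ker (L 0) ⊓ LinearMap.ker (L 1) = ⊥ := by
    rw [eq_bot_iff]
    rintro x ⟨h0, h1⟩
    rw [Submodule.mem_bot]
    by_contra hx
    obtain ⟨m, hm⟩ := hs x hx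
    apply hm
    have h0' := (hmem 0 x).mp h0
    have h1' := (hmem 1 x).mp h1
    rw [hF, map_sum, map_sum]
    refine Finset.sum_eq_zero fun i _ => ?_
    simp only [Derivation.leibniz, smul_eq_mul, map_add, map_mul, h0', h1']
    ring
  have hrank : ∀ j, 3 ≤ finrank ℂ (LinearMap.ker (L j)) := by
    intro j
    have h := (L j).finrank_range_add_finrank_ker
    have h2 : finrank ℂ (LinearMap.range (L j)) ≤ 3 := by
      simpa using Submodule.finrank_le (LinearMap.range (L j))
    simp only [finrank_fintype_fun_eq_card, Fintype.card_fin] at h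
    omega
  have hsum := Submodule.finrank_sup_add_finrank_inf_eq (LinearMap.ker (L 0)) (LinearMap.ker (L 1))
  rw [hinf, finrank_bot] at hsum
  have hle : finrank ℂ (LinearMap.ker (L 0) ⊔ LinearMap.ker (L 1) : Submodule ℂ (Fin 6 → ℂ)) ≤ 6 := by
    simpa using Submodule.finrank_le (LinearMap.ker (L 0) ⊔ LinearMap.ker (L 1))
  have r0 := hrank 0
  have r1 := hrank 1
  have hA : finrank ℂ (LinearMap.ker (L 0)) = 3 ∧ ∀ x ∈ LinearMap.ker (L 0), eval x F = 0 := by
    refine ⟨by omega, fun x hx => ?_⟩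
    have := (hmem 0 x).mp hx
    rw [hF, map_sum]
    refine Finset.sum_eq_zero fun i _ => ?_
    rw [map_mul, map_mul, this, zero_mul, zero_mul]
  have hB : finrank ℂ (LinearMap.ker (L 1)) = 3 ∧ ∀ x ∈ LinearMap.ker (L 1), eval x F = 0 := by
    refine ⟨by omega, fun x hx => ?_⟩
    have := (hmem 1 x).mp hx
    rw [hF, map_sum]
    refine Finset.sum_eq_zero fun i _ => ?_
    rw [map_mul, map_mul, this, mul_zero, zero_mul]
  exact Helper16.rational_of_disjoint F hhom hs hA hB hinf

end Pool.Agent.Results.MP_ffd2c1_ag.ThreeProducts
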